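import Mathlib

/-!
# Down-posets: definitions and the criterion with down-functions
-/

set_option autoImplicit false

namespace Pool.Agent.R533.DP

/-- The poset `α` is a `↓`-poset: there is a semilattice with identity `S` (a commutative monoid all
of whose elements are idempotent) acting on the set `α` such that `c ≤ d` if and only if `c` is the
image of `d` under some element of `S`. (As `S` is commutative, there is no difference between left
and right actions.) -/
def IsDownPoset (α : Type) [PartialOrder α] : Prop :=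
  ∃ (S : Type) (_ : CommMonoid S) (_ : MulAction S α), (∀ s : S, s * s = s) ∧
    ∀ c d : α, c ≤ d ↔ ∃ s : S, s • d = c

/-- The square Boolean matrix `M` (given by the list of its rows) is the order relation of a poset
isomorphic to `α`. -/
def Describes (M : List (List Bool)) (α : Type) [PartialOrder α] : Prop :=
  (∀ r ∈ M, r.length = M.length) ∧
    ∃ e : α ≃ Fin M.length, ∀ a b : α, a ≤ b ↔ (M[e a]).getD (e b) false = true

/-- The decision problem: given a finite poset by the matrix of its order relation, is it a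
`↓`-poset? -/
def DownPosetProblem (M : List (List Bool)) : Prop :=
  ∃ (α : Type) (_ : PartialOrder α), Describes M α ∧ IsDownPoset α

/-- The `↓`-functions of a poset. -/
structure IsDownFun {α : Type} [PartialOrder α] (f : α → α) : Prop where
  le : ∀ c, f c ≤ c
  mono : ∀ c d, c ≤ d → f c ≤ f d
  fix : ∀ c d, c ≤ f d → f c = c

variable {α : Type} [PartialOrder α]

theorem IsDownFun.idem {f : α → α} (h : IsDownFun f) (c : α) : f (f c) = f c := h.fix _ _ le_rfl

theorem IsDownFun.comm_le {f g : α → α} (hf : IsDownFun f) (hg : IsDownFun g) (x : α) :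
    f (g x) ≤ g (f x) := by
  have h1 : g (f (g x)) = f (g x) := hg.fix _ x (hf.le _)
  have h2 : f (g x) ≤ f x := hf.mono _ _ (hg.le x)
  calc f (g x) = g (f (g x)) := h1.symm
    _ ≤ g (f x) := hg.mono _ _ h2

theorem IsDownFun.comm {f g : α → α} (hf : IsDownFun f) (hg : IsDownFun g) (x : α) :
    f (g x) = g (f x) := le_antisymm (hf.comm_le hg x) (hg.comm_le hf x)

theorem IsDownFun.comp {f g : α → α} (hf : IsDownFun f) (hg : IsDownFun g) :
    IsDownFun (fun x => f (g x)) where
  le c := (hf.le _).trans (hg.le _)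
  mono c d h := hf.mono _ _ (hg.mono _ _ h)
  fix c d h := by
    have h1 : g c = c := hg.fix c d (h.trans (hf.le _))
    have h2 : f c = c := hf.fix c (g d) h
    show f (g c) = c
    rw [h1, h2]

theorem isDownFun_id : IsDownFun (fun x : α => x) := ⟨fun _ => le_rfl, fun _ _ h => h, fun _ _ _ => rfl⟩

/-- The `↓`-functions form a commutative monoid. -/
instance instMonoidDownFun : CommMonoid {f : α → α // IsDownFun f} where
  mul f g := ⟨fun x => f.1 (g.1 x), f.2.comp g.2⟩
  one := ⟨fun x => x, isDownFun_id⟩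
  mul_assoc _ _ _ := rfl
  one_mul _ := rfl
  mul_one _ := rfl
  mul_comm f g := Subtype.ext (funext fun x => f.2.comm g.2 x)

instance instActDownFun : MulAction {f : α → α // IsDownFun f} α where
  smul f c := f.1 c
  one_smul _ := rfl
  mul_smul _ _ _ := rfl

/-- The criterion with `↓`-functions. -/
theorem isDownPoset_iff : IsDownPoset α ↔ ∀ c d : α, c ≤ d → ∃ f : α → α, IsDownFun f ∧ f d = c := by
  constructor
  · rintro ⟨S, i1, i2, hid, hle⟩ c d hcd
    obtain ⟨s, hs⟩ := (hle c d).1 hcd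
    refine ⟨fun x => s • x, ⟨fun x => (hle _ _).2 ⟨s, rfl⟩, fun x y hxy => ?_, fun x y hxy => ?_⟩, hs⟩
    · obtain ⟨t, rfl⟩ := (hle x y).1 hxy
      exact (hle _ _).2 ⟨t, smul_comm t s y⟩
    · obtain ⟨t, ht⟩ := (hle x _).1 hxy
      show s • x = x
      rw [← ht, smul_comm s t, smul_smul s s y, hid]
  · intro h
    refine ⟨{f : α → α // IsDownFun f}, inferInstance, inferInstance, fun f => ?_, fun c d => ?_⟩
    · exact Subtype.ext (funext fun x => f.2.idem x)
    · constructor
      · intro hcd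
        obtain ⟨f, hf, hfd⟩ := h c d hcd
        exact ⟨⟨f, hf⟩, hfd⟩
      · rintro ⟨f, rfl⟩
        exact f.2.le d

/-- The defining property of `↓`-functions with down-sets. -/
theorem isDownFun_iff {f : α → α} : IsDownFun f ↔
    (∀ x, f x ≤ x) ∧ ∀ x' x, x' ≤ x → ∀ t, t ≤ f x' ↔ t ≤ x' ∧ t ≤ f x := by
  constructor
  · intro h
    refine ⟨h.le, fun x' x hx t => ⟨fun ht => ⟨ht.trans (h.le _), ht.trans (h.mono _ _ hx)⟩, ?_⟩⟩
    rintro ⟨h1, h2⟩
    rw [← h.fix t x h2]
    exact h.mono _ _ h1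
  · rintro ⟨h1, h2⟩
    refine ⟨h1, fun c d hcd => ((h2 c d hcd (f c)).1 le_rfl).2, fun c d hcd => ?_⟩
    exact le_antisymm (h1 c) ((h2 c d (hcd.trans (h1 d)) c).2 ⟨le_rfl, hcd⟩)

/-- A relation `R x y` (read: `y` is a possible value at `x`) is consistent. -/
structure Consistent (R : α → α → Prop) : Prop where
  le : ∀ x y, R x y → y ≤ x
  ne : ∀ x, ∃ y, R x y
  down : ∀ x y, R x y → ∀ x' ≤ x, ∃ y', R x' y' ∧ ∀ t, t ≤ y' ↔ t ≤ x' ∧ t ≤ y
  up : ∀ x y, R x y → ∀ x'', x ≤ x'' → ∃ y'', R x'' y'' ∧ ∀ t, t ≤ y ↔ t ≤ x ∧ t ≤ y''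

/-- Finite sets of possible values have infima. -/
theorem Consistent.exists_inf {R : α → α → Prop} (h : Consistent R) (x : α) (s : Finset α)
    (hs : s.Nonempty) (hR : ∀ y ∈ s, R x y) : ∃ m, ∀ t, t ≤ m ↔ ∀ y ∈ s, t ≤ y := by
  classical
  induction hs using Finset.Nonempty.cons_induction with
  | singleton a => exact ⟨a, fun t => by simp⟩
  | cons a s ha hs ih =>
    obtain ⟨m, hm⟩ := ih (fun y hy => hR y (Finset.mem_cons_of_mem hy))
    obtain ⟨b, hb⟩ := hs
    have h1 : m ≤ x := ((hm m).1 le_rfl b hb).trans (h.le x b (hR b (Finset.mem_cons_of_mem hb)))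
    obtain ⟨y', -, hy'⟩ := h.down x a (hR a (Finset.mem_cons_self _ _)) m h1
    refine ⟨y', fun t => ?_⟩
    rw [hy', hm]
    simp only [Finset.mem_cons, forall_eq_or_imp]
    tauto

/-- **Arc consistency suffices.** -/
theorem Consistent.exists_downFun [Finite α] {R : α → α → Prop} (h : Consistent R) :
    ∃ f : α → α, IsDownFun f ∧ ∀ x t, t ≤ f x ↔ ∀ y, R x y → t ≤ y := by
  classical
  have := Fintype.ofFinite α
  have key : ∀ x, ∃ m, ∀ t, t ≤ m ↔ ∀ y, R x y → t ≤ y := by
    intro x
    obtain ⟨y, hy⟩ := h.ne x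
    obtain ⟨m, hm⟩ := h.exists_inf x (Finset.univ.filter (R x)) ⟨y, by simpa using hy⟩
      (fun y hy => by simpa using hy)
    exact ⟨m, fun t => by rw [hm]; simp⟩
  choose f hf using key
  refine ⟨f, isDownFun_iff.2 ⟨fun x => ?_, fun x' x hx t => ?_⟩, hf⟩
  · obtain ⟨y, hy⟩ := h.ne x
    exact ((hf x (f x)).1 le_rfl y hy).trans (h.le x y hy)
  · rw [hf, hf]
    constructor
    · intro ht
      obtain ⟨y0, hy0⟩ := h.ne x'
      refine ⟨(ht y0 hy0).trans (h.le _ _ hy0), fun y hy => ?_⟩
      obtain ⟨y', hy', hy2⟩ := h.down x y hy x' hx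
      exact ((hy2 t).1 (ht y' hy')).2
    · rintro ⟨h1, h2⟩ y' hy'
      obtain ⟨y, hy, hy2⟩ := h.up x' y' hy' x hx
      exact (hy2 t).2 ⟨h1, h2 y hy⟩

/-- The graph of a `↓`-function is consistent. -/
theorem IsDownFun.consistent {f : α → α} (h : IsDownFun f) : Consistent (fun x y => f x = y) := by
  have h2 := (isDownFun_iff.1 h).2
  exact ⟨fun x y e => e ▸ h.le x, fun x => ⟨_, rfl⟩,
    fun x y e x' hx => ⟨f x', rfl, fun t => by rw [h2 x' x hx t, e]⟩,
    fun x y e x'' hx => ⟨f x'', rfl, fun t => by rw [← e, h2 x x'' hx t]⟩⟩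

end Pool.Agent.R533.DP
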