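import Pool.Agent.NPC.Dec
import Pool.Agent.R533.DP.Defs

/-!
# Down-posets: the algorithm (arc consistency) and its running time
-/

set_option autoImplicit false

namespace Pool.Agent.NPC.R533.DP

open Pool.Agent.R533.DP

/-- Entry of a matrix. -/
def ent (M : List (List Bool)) (i j : ℕ) : Bool := (M.getD i []).getD j false

/-- The elements below `a` are the common lower bounds of `b` and `c`. -/
def tr (M : List (List Bool)) (a b c : ℕ) : Bool :=
  (List.range M.length).all fun t => decide (ent M t a = (ent M t b && ent M t c))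

/-- Consistency with the elements below. -/
def okD (M : List (List Bool)) (R : List (ℕ × ℕ)) (p : ℕ × ℕ) : Bool :=
  (List.range M.length).all fun x => !(ent M x p.1) ||
    R.any fun q => decide (q.1 = x) && tr M q.2 x p.2

/-- Consistency with the elements above. -/
def okU (M : List (List Bool)) (R : List (ℕ × ℕ)) (p : ℕ × ℕ) : Bool :=
  (List.range M.length).all fun x => !(ent M p.1 x) ||
    R.any fun q => decide (q.1 = x) && tr M p.2 p.1 q.2

/-- One round of arc consistency. -/
def step (M : List (List Bool)) (R : List (ℕ × ℕ)) : List (ℕ × ℕ) :=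
  R.filter fun p => okD M R p && okU M R p

/-- All pairs. -/
def pairs (M : List (List Bool)) : List (ℕ × ℕ) :=
  (List.range M.length).flatMap fun i => (List.range M.length).map fun j => (i, j)

/-- The possible values at the beginning. -/
def start (M : List (List Bool)) (e : ℕ × ℕ) : List (ℕ × ℕ) :=
  (pairs M).filter fun p => ent M p.2 p.1 && (!(decide (p.1 = e.2)) || decide (p.2 = e.1))

/-- The result of arc consistency. -/
def final (M : List (List Bool)) (e : ℕ × ℕ) : List (ℕ × ℕ) :=
  (step M)^[(pairs M).length] (start M e)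

/-- All elements have possible values. -/
def good (M : List (List Bool)) (e : ℕ × ℕ) : Bool :=
  (List.range M.length).all fun x => (final M e).any fun p => decide (p.1 = x)

/-- The matrix is square and the relation is a partial order. -/
def isOrd (M : List (List Bool)) : Bool :=
  (M.all fun r => decide (r.length = M.length)) &&
  (((List.range M.length).all fun i => ent M i i) &&
  (((pairs M).all fun p => !(ent M p.1 p.2 && ent M p.2 p.1) || decide (p.1 = p.2)) &&
  ((pairs M).all fun p => (List.range M.length).all fun k =>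
    !(ent M p.1 p.2 && ent M p.2 k) || ent M p.1 k)))

/-- The decision algorithm. -/
def test (M : List (List Bool)) : Bool :=
  isOrd M && (pairs M).all fun p => !(ent M p.1 p.2) || good M p

section PolyTime

variable {α : Type} [TEnc α]

theorem poly_ent {M : α → List (List Bool)} {i j : α → ℕ} (hM : Poly M) (hi : Poly i)
    (hj : Poly j) : Poly (fun a => ent (M a) (i a) (j a)) :=
  Poly.getD (Poly.getD hM hi (Poly.const [])) hj (Poly.const false)

theorem poly_tr {M : α → List (List Bool)} {i j k : α → ℕ} (hM : Poly M) (hi : Poly i)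
    (hj : Poly j) (hk : Poly k) : Poly (fun a => tr (M a) (i a) (j a) (k a)) :=
  Poly.all (l := fun a => List.range (M a).length)
    (p := fun a t => decide (ent (M a) t (i a) = (ent (M a) t (j a) && ent (M a) t (k a))))
    (Poly.range_length hM)
    (Poly.decide_eq (poly_ent (hM.comp (Poly.fst Poly.id)) (Poly.snd Poly.id)
      (hi.comp (Poly.fst Poly.id)))
      (Poly.and (poly_ent (hM.comp (Poly.fst Poly.id)) (Poly.snd Poly.id)
        (hj.comp (Poly.fst Poly.id)))
        (poly_ent (hM.comp (Poly.fst Poly.id)) (Poly.snd Poly.id) (hk.comp (Poly.fst Poly.id)))))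

theorem poly_okD : Poly (fun a : List (List Bool) × List (ℕ × ℕ) × ℕ × ℕ =>
    okD a.1 a.2.1 a.2.2) :=
  Poly.all (l := fun a : List (List Bool) × List (ℕ × ℕ) × ℕ × ℕ => List.range a.1.length)
    (p := fun a x => !(ent a.1 x a.2.2.1) ||
      a.2.1.any fun q => decide (q.1 = x) && tr a.1 q.2 x a.2.2.2)
    (Poly.range_length (Poly.fst Poly.id))
    (Poly.or (Poly.not (poly_ent (Poly.fst (Poly.fst Poly.id)) (Poly.snd Poly.id)
      (Poly.fst (Poly.snd (Poly.snd (Poly.fst Poly.id))))))
      (Poly.any (l := fun b : (List (List Bool) × List (ℕ × ℕ) × ℕ × ℕ) × ℕ => b.1.2.1)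
        (p := fun b q => decide (q.1 = b.2) && tr b.1.1 q.2 b.2 b.1.2.2.2)
        (Poly.fst (Poly.snd (Poly.fst Poly.id)))
        (Poly.and (Poly.decide_eq (Poly.fst (Poly.snd Poly.id)) (Poly.snd (Poly.fst Poly.id)))
          (poly_tr (Poly.fst (Poly.fst (Poly.fst Poly.id))) (Poly.snd (Poly.snd Poly.id))
            (Poly.snd (Poly.fst Poly.id))
            (Poly.snd (Poly.snd (Poly.snd (Poly.fst (Poly.fst Poly.id)))))))))

theorem poly_okU : Poly (fun a : List (List Bool) × List (ℕ × ℕ) × ℕ × ℕ =>
    okU a.1 a.2.1 a.2.2) :=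
  Poly.all (l := fun a : List (List Bool) × List (ℕ × ℕ) × ℕ × ℕ => List.range a.1.length)
    (p := fun a x => !(ent a.1 a.2.2.1 x) ||
      a.2.1.any fun q => decide (q.1 = x) && tr a.1 a.2.2.2 a.2.2.1 q.2)
    (Poly.range_length (Poly.fst Poly.id))
    (Poly.or (Poly.not (poly_ent (Poly.fst (Poly.fst Poly.id))
      (Poly.fst (Poly.snd (Poly.snd (Poly.fst Poly.id)))) (Poly.snd Poly.id)))
      (Poly.any (l := fun b : (List (List Bool) × List (ℕ × ℕ) × ℕ × ℕ) × ℕ => b.1.2.1)
        (p := fun b q => decide (q.1 = b.2) && tr b.1.1 b.1.2.2.2 b.1.2.2.1 q.2)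
        (Poly.fst (Poly.snd (Poly.fst Poly.id)))
        (Poly.and (Poly.decide_eq (Poly.fst (Poly.snd Poly.id)) (Poly.snd (Poly.fst Poly.id)))
          (poly_tr (Poly.fst (Poly.fst (Poly.fst Poly.id)))
            (Poly.snd (Poly.snd (Poly.snd (Poly.fst (Poly.fst Poly.id)))))
            (Poly.fst (Poly.snd (Poly.snd (Poly.fst (Poly.fst Poly.id)))))
            (Poly.snd (Poly.snd Poly.id))))))

theorem poly_step : Poly (fun a : List (List Bool) × List (ℕ × ℕ) => step a.1 a.2) :=
  Poly.filter (l := fun a : List (List Bool) × List (ℕ × ℕ) => a.2)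
    (p := fun a p => okD a.1 a.2 p && okU a.1 a.2 p) (Poly.snd Poly.id)
    (Poly.and
      (poly_okD.comp (Poly.pair (Poly.fst (Poly.fst Poly.id))
        (Poly.pair (Poly.snd (Poly.fst Poly.id)) (Poly.snd Poly.id))))
      (poly_okU.comp (Poly.pair (Poly.fst (Poly.fst Poly.id))
        (Poly.pair (Poly.snd (Poly.fst Poly.id)) (Poly.snd Poly.id)))))

theorem poly_pairs : Poly pairs :=
  Poly.flatMap (l := fun M : List (List Bool) => List.range M.length)
    (F := fun M i => (List.range M.length).map fun j => (i, j)) (Poly.range_length Poly.id)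
    (Poly.map (l := fun a : List (List Bool) × ℕ => List.range a.1.length)
      (F := fun a j => (a.2, j)) (Poly.range_length (Poly.fst Poly.id))
      (Poly.pair (Poly.snd (Poly.fst Poly.id)) (Poly.snd Poly.id)))

theorem poly_start : Poly (fun a : List (List Bool) × ℕ × ℕ => start a.1 a.2) :=
  Poly.filter (l := fun a : List (List Bool) × ℕ × ℕ => pairs a.1)
    (p := fun a p => ent a.1 p.2 p.1 && (!(decide (p.1 = a.2.2)) || decide (p.2 = a.2.1)))
    (poly_pairs.comp (Poly.fst Poly.id))
    (Poly.and (poly_ent (Poly.fst (Poly.fst Poly.id)) (Poly.snd (Poly.snd Poly.id))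
      (Poly.fst (Poly.snd Poly.id)))
      (Poly.or (Poly.not (Poly.decide_eq (Poly.fst (Poly.snd Poly.id))
        (Poly.snd (Poly.snd (Poly.fst Poly.id)))))
        (Poly.decide_eq (Poly.snd (Poly.snd Poly.id)) (Poly.fst (Poly.snd (Poly.fst Poly.id))))))

theorem sz_filter_le {β : Type} [TEnc β] (l : List β) (p : β → Bool) :
    sz (l.filter p) ≤ sz l := by
  induction l with
  | nil => simp
  | cons b l ih =>
    rw [List.filter_cons]
    split_ifs
    · simp
      exact ih
    · simp
      omega

theorem sz_iterate_le (M : List (List Bool)) (k : ℕ) (R : List (ℕ × ℕ)) :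
    sz ((step M)^[k] R) ≤ sz R := by
  induction k with
  | zero => exact le_rfl
  | succ k ih =>
    rw [Function.iterate_succ_apply']
    exact (sz_filter_le _ _).trans ih

theorem poly_final : Poly (fun a : List (List Bool) × ℕ × ℕ => final a.1 a.2) := by
  obtain ⟨q, hq⟩ := poly_start.sz_le
  exact Poly.iterLen (l := fun a : List (List Bool) × ℕ × ℕ => pairs a.1)
    (s := fun a => start a.1 a.2) (F := fun a R => step a.1 R)
    (poly_pairs.comp (Poly.fst Poly.id)) poly_start
    (poly_step.comp (Poly.pair (Poly.fst (Poly.fst Poly.id)) (Poly.snd Poly.id))) q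
    (fun a k _ => (sz_iterate_le a.1 k _).trans (hq a))

theorem poly_good : Poly (fun a : List (List Bool) × ℕ × ℕ => good a.1 a.2) :=
  Poly.all (l := fun a : List (List Bool) × ℕ × ℕ => List.range a.1.length)
    (p := fun a x => (final a.1 a.2).any fun p => decide (p.1 = x))
    (Poly.range_length (Poly.fst Poly.id))
    (Poly.any (l := fun b : (List (List Bool) × ℕ × ℕ) × ℕ => final b.1.1 b.1.2)
      (p := fun b p => decide (p.1 = b.2)) (poly_final.comp (Poly.fst Poly.id))
      (Poly.decide_eq (Poly.fst (Poly.snd Poly.id)) (Poly.snd (Poly.fst Poly.id))))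

theorem poly_isOrd : Poly isOrd :=
  Poly.and (Poly.all (l := fun M : List (List Bool) => M)
      (p := fun M r => decide (r.length = M.length)) Poly.id
      (Poly.decide_eq (Poly.length (Poly.snd Poly.id)) (Poly.length (Poly.fst Poly.id))))
    (Poly.and (Poly.all (l := fun M : List (List Bool) => List.range M.length)
      (p := fun M i => ent M i i) (Poly.range_length Poly.id)
      (poly_ent (Poly.fst Poly.id) (Poly.snd Poly.id) (Poly.snd Poly.id)))
    (Poly.and (Poly.all (l := fun M : List (List Bool) => pairs M)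
      (p := fun M p => !(ent M p.1 p.2 && ent M p.2 p.1) || decide (p.1 = p.2)) poly_pairs
      (Poly.or (Poly.not (Poly.and
        (poly_ent (Poly.fst Poly.id) (Poly.fst (Poly.snd Poly.id)) (Poly.snd (Poly.snd Poly.id)))
        (poly_ent (Poly.fst Poly.id) (Poly.snd (Poly.snd Poly.id)) (Poly.fst (Poly.snd Poly.id)))))
        (Poly.decide_eq (Poly.fst (Poly.snd Poly.id)) (Poly.snd (Poly.snd Poly.id)))))
    (Poly.all (l := fun M : List (List Bool) => pairs M)
      (p := fun M p => (List.range M.length).all fun k =>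
        !(ent M p.1 p.2 && ent M p.2 k) || ent M p.1 k) poly_pairs
      (Poly.all (l := fun a : List (List Bool) × ℕ × ℕ => List.range a.1.length)
        (p := fun a k => !(ent a.1 a.2.1 a.2.2 && ent a.1 a.2.2 k) || ent a.1 a.2.1 k)
        (Poly.range_length (Poly.fst Poly.id))
        (Poly.or (Poly.not (Poly.and
          (poly_ent (Poly.fst (Poly.fst Poly.id)) (Poly.fst (Poly.snd (Poly.fst Poly.id)))
            (Poly.snd (Poly.snd (Poly.fst Poly.id))))
          (poly_ent (Poly.fst (Poly.fst Poly.id)) (Poly.snd (Poly.snd (Poly.fst Poly.id)))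
            (Poly.snd Poly.id))))
          (poly_ent (Poly.fst (Poly.fst Poly.id)) (Poly.fst (Poly.snd (Poly.fst Poly.id)))
            (Poly.snd Poly.id)))))))

theorem poly_test : Poly test :=
  Poly.and poly_isOrd (Poly.all (l := fun M : List (List Bool) => pairs M)
    (p := fun M p => !(ent M p.1 p.2) || good M p) poly_pairs
    (Poly.or (Poly.not (poly_ent (Poly.fst Poly.id) (Poly.fst (Poly.snd Poly.id))
      (Poly.snd (Poly.snd Poly.id)))) poly_good))

end PolyTime

end Pool.Agent.NPC.R533.DP
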