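import Pool.Agent.R533.DP.Alg

/-!
# Down-posets: correctness of the algorithm
-/

set_option autoImplicit false

namespace Pool.Agent.NPC.R533.DP

open Pool.Agent.R533.DP

variable {M : List (List Bool)}

theorem mem_pairs {p : ℕ × ℕ} : p ∈ pairs M ↔ p.1 < M.length ∧ p.2 < M.length := by
  obtain ⟨i, j⟩ := p
  simp [pairs]

theorem isOrd_iff : isOrd M = true ↔ (∀ r ∈ M, r.length = M.length) ∧
    (∀ i < M.length, ent M i i = true) ∧
    (∀ i j, i < M.length → j < M.length → ent M i j = true → ent M j i = true → i = j) ∧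
    ∀ i j k, i < M.length → j < M.length → k < M.length → ent M i j = true → ent M j k = true →
      ent M i k = true := by
  simp only [isOrd, Bool.and_eq_true, List.all_eq_true, decide_eq_true_eq, List.mem_range,
    mem_pairs, Bool.or_eq_true, Bool.not_eq_true', Bool.and_eq_false_iff, Prod.forall]
  constructor
  · rintro ⟨h1, h2, h3, h4⟩
    refine ⟨h1, h2, fun i j hi hj hij hji => ?_, fun i j k hi hj hk hij hjk => ?_⟩
    · rcases h3 i j ⟨hi, hj⟩ with (h | h) | h
      · rw [h] at hij; exact absurd hij (by simp)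
      · rw [h] at hji; exact absurd hji (by simp)
      · exact h
    · rcases h4 i j ⟨hi, hj⟩ k hk with (h | h) | h
      · rw [h] at hij; exact absurd hij (by simp)
      · rw [h] at hjk; exact absurd hjk (by simp)
      · exact h
  · rintro ⟨h1, h2, h3, h4⟩
    refine ⟨h1, h2, fun i j hij => ?_, fun i j hij k hk => ?_⟩
    · by_cases ha : ent M i j = true
      · by_cases hb : ent M j i = true
        · exact Or.inr (h3 i j hij.1 hij.2 ha hb)
        · exact Or.inl (Or.inr (by simpa using hb))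
      · exact Or.inl (Or.inl (by simpa using ha))
    · by_cases ha : ent M i j = true
      · by_cases hb : ent M j k = true
        · exact Or.inr (h4 i j k hij.1 hij.2 hk ha hb)
        · exact Or.inl (Or.inr (by simpa using hb))
      · exact Or.inl (Or.inl (by simpa using ha))

/-- The partial order given by a matrix. -/
@[reducible] def ord (h : isOrd M = true) : PartialOrder (Fin M.length) where
  le a b := ent M a b = true
  lt a b := ent M a b = true ∧ ¬ ent M b a = true
  lt_iff_le_not_ge _ _ := Iff.rfl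
  le_refl a := (isOrd_iff.1 h).2.1 a a.2
  le_trans a b c := (isOrd_iff.1 h).2.2.2 a b c a.2 b.2 c.2
  le_antisymm a b h1 h2 := Fin.ext ((isOrd_iff.1 h).2.2.1 a b a.2 b.2 h1 h2)

theorem step_iterate_fix : ∀ (N : ℕ) (R : List (ℕ × ℕ)), R.length ≤ N →
    step M ((step M)^[N] R) = (step M)^[N] R
  | 0, R, h => by
    have : R = [] := List.length_eq_zero_iff.1 (by omega)
    subst this
    rfl
  | N + 1, R, h => by
    by_cases hR : step M R = R
    · have : ∀ k, (step M)^[k] R = R := fun k => Function.iterate_fixed hR k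
      rw [this, hR]
    · rw [Function.iterate_succ_apply]
      refine step_iterate_fix N _ ?_
      have h1 : (step M R).length ≠ R.length := by
        intro he
        exact hR (List.filter_sublist.eq_of_length he)
      have h2 : (step M R).length ≤ R.length := List.length_filter_le _ _
      omega

theorem step_final (e : ℕ × ℕ) : step M (final M e) = final M e :=
  step_iterate_fix _ _ (List.length_filter_le _ _)

theorem iterate_sub (e : ℕ × ℕ) : ∀ (k : ℕ) (p : ℕ × ℕ), p ∈ (step M)^[k] (start M e) →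
    p ∈ start M e
  | 0, p, h => h
  | k + 1, p, h => by
    rw [Function.iterate_succ_apply'] at h
    exact iterate_sub e k p (List.mem_of_mem_filter h)

theorem mem_start {e p : ℕ × ℕ} : p ∈ start M e ↔ (p.1 < M.length ∧ p.2 < M.length) ∧
    ent M p.2 p.1 = true ∧ (p.1 = e.2 → p.2 = e.1) := by
  simp only [start, List.mem_filter, mem_pairs, Bool.and_eq_true, Bool.or_eq_true,
    Bool.not_eq_true', decide_eq_false_iff_not, decide_eq_true_eq]
  tauto

theorem tr_iff {a b c : ℕ} : tr M a b c = true ↔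
    ∀ t < M.length, ent M t a = true ↔ (ent M t b = true ∧ ent M t c = true) := by
  simp only [tr, List.all_eq_true, List.mem_range, decide_eq_true_eq]
  refine forall_congr' fun t => imp_congr_right fun _ => ?_
  cases ent M t a <;> cases ent M t b <;> cases ent M t c <;> simp

theorem okD_iff {R : List (ℕ × ℕ)} {p : ℕ × ℕ} : okD M R p = true ↔
    ∀ x < M.length, ent M x p.1 = true → ∃ y, (x, y) ∈ R ∧ tr M y x p.2 = true := by
  simp only [okD, List.all_eq_true, List.mem_range, Bool.or_eq_true, Bool.not_eq_true',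
    List.any_eq_true, Bool.and_eq_true, decide_eq_true_eq]
  refine forall_congr' fun x => imp_congr_right fun _ => ?_
  constructor
  · rintro (h | ⟨⟨q1, q2⟩, h1, rfl, h3⟩) h'
    · rw [h] at h'; exact absurd h' (by simp)
    · exact ⟨q2, h1, h3⟩
  · intro h
    by_cases hx : ent M x p.1 = true
    · obtain ⟨y, h1, h2⟩ := h hx
      exact Or.inr ⟨(x, y), h1, rfl, h2⟩
    · exact Or.inl (by simpa using hx)

theorem okU_iff {R : List (ℕ × ℕ)} {p : ℕ × ℕ} : okU M R p = true ↔
    ∀ x < M.length, ent M p.1 x = true → ∃ y, (x, y) ∈ R ∧ tr M p.2 p.1 y = true := by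
  simp only [okU, List.all_eq_true, List.mem_range, Bool.or_eq_true, Bool.not_eq_true',
    List.any_eq_true, Bool.and_eq_true, decide_eq_true_eq]
  refine forall_congr' fun x => imp_congr_right fun _ => ?_
  constructor
  · rintro (h | ⟨⟨q1, q2⟩, h1, rfl, h3⟩) h'
    · rw [h] at h'; exact absurd h' (by simp)
    · exact ⟨q2, h1, h3⟩
  · intro h
    by_cases hx : ent M p.1 x = true
    · obtain ⟨y, h1, h2⟩ := h hx
      exact Or.inr ⟨(x, y), h1, rfl, h2⟩
    · exact Or.inl (by simpa using hx)

theorem mem_step {R : List (ℕ × ℕ)} {p : ℕ × ℕ} : p ∈ step M R ↔ p ∈ R ∧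
    (∀ x < M.length, ent M x p.1 = true → ∃ y, (x, y) ∈ R ∧ tr M y x p.2 = true) ∧
    ∀ x < M.length, ent M p.1 x = true → ∃ y, (x, y) ∈ R ∧ tr M p.2 p.1 y = true := by
  rw [step, List.mem_filter, Bool.and_eq_true, okD_iff, okU_iff]

theorem good_iff {e : ℕ × ℕ} : good M e = true ↔ ∀ x < M.length, ∃ y, (x, y) ∈ final M e := by
  simp only [good, List.all_eq_true, List.mem_range, List.any_eq_true, decide_eq_true_eq]
  refine forall_congr' fun x => imp_congr_right fun _ => ?_
  constructor
  · rintro ⟨⟨q1, q2⟩, h1, rfl⟩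
    exact ⟨q2, h1⟩
  · rintro ⟨y, hy⟩
    exact ⟨_, hy, rfl⟩

/-- Arc consistency decides the existence of a `↓`-function with a given value. -/
theorem good_correct (h : isOrd M = true) (c d : Fin M.length) (hcd : ent M c d = true) :
    good M (c, d) = true ↔
      ∃ f : Fin M.length → Fin M.length, @IsDownFun _ (ord h) f ∧ f d = c := by
  let _ := ord h
  constructor
  · intro hg
    rw [good_iff] at hg
    have hlt : ∀ p ∈ final M (c, d), p ∈ start M (c, d) := iterate_sub _ _
    have hfix : ∀ p ∈ final M (c.1, d.1),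
        (∀ x < M.length, ent M x p.1 = true →
          ∃ y, (x, y) ∈ final M (c.1, d.1) ∧ tr M y x p.2 = true) ∧
        ∀ x < M.length, ent M p.1 x = true →
          ∃ y, (x, y) ∈ final M (c.1, d.1) ∧ tr M p.2 p.1 y = true := by
      intro p hp
      rw [← step_final, mem_step] at hp
      exact hp.2
    have hcons : Consistent (fun x y : Fin M.length => (x.1, y.1) ∈ final M (c.1, d.1)) := by
      refine ⟨fun x y hxy => (mem_start.1 (hlt _ hxy)).2.1, fun x => ?_, fun x y hxy x' hx => ?_,
        fun x y hxy x' hx => ?_⟩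
      · obtain ⟨y, hy⟩ := hg x x.2
        exact ⟨⟨y, (mem_start.1 (hlt _ hy)).1.2⟩, hy⟩
      · obtain ⟨y', hy', ht⟩ := (hfix _ hxy).1 x' x'.2 hx
        refine ⟨⟨y', (mem_start.1 (hlt _ hy')).1.2⟩, hy', fun t => ?_⟩
        exact tr_iff.1 ht t t.2
      · obtain ⟨y', hy', ht⟩ := (hfix _ hxy).2 x' x'.2 hx
        refine ⟨⟨y', (mem_start.1 (hlt _ hy')).1.2⟩, hy', fun t => ?_⟩
        exact tr_iff.1 ht t t.2
    obtain ⟨f, hf, hf2⟩ := hcons.exists_downFun
    refine ⟨f, hf, ?_⟩
    have hd : ∀ y : Fin M.length, (d.1, y.1) ∈ final M (c.1, d.1) → y = c := fun y hy =>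
      Fin.ext ((mem_start.1 (hlt _ hy)).2.2 rfl)
    obtain ⟨y, hy⟩ := hcons.ne d
    have hyc := hd y hy
    subst hyc
    apply le_antisymm
    · exact (hf2 d _).1 le_rfl y hy
    · refine (hf2 d _).2 fun y' hy' => ?_
      rw [hd y' hy']
  · rintro ⟨f, hf, hfd⟩
    have key : ∀ (k : ℕ) (x : Fin M.length), (x.1, (f x).1) ∈ (step M)^[k] (start M (c.1, d.1)) := by
      intro k
      induction k with
      | zero =>
        intro x
        refine mem_start.2 ⟨⟨x.2, (f x).2⟩, hf.le x, fun hx => ?_⟩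
        have : x = d := Fin.ext hx
        subst this
        show (f x).1 = c.1
        rw [hfd]
      | succ k ih =>
        intro x
        rw [Function.iterate_succ_apply', mem_step]
        have h2 := (isDownFun_iff.1 hf).2
        refine ⟨ih x, fun x' hx' hle => ⟨(f ⟨x', hx'⟩).1, ih ⟨x', hx'⟩, ?_⟩,
          fun x' hx' hle => ⟨(f ⟨x', hx'⟩).1, ih ⟨x', hx'⟩, ?_⟩⟩
        · exact tr_iff.2 fun t ht => h2 ⟨x', hx'⟩ x hle ⟨t, ht⟩
        · exact tr_iff.2 fun t ht => h2 x ⟨x', hx'⟩ hle ⟨t, ht⟩
    exact good_iff.2 fun x hx => ⟨_, key _ ⟨x, hx⟩⟩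

theorem test_iff : test M = true ↔ ∃ h : isOrd M = true, ∀ c d : Fin M.length,
    ent M c d = true → ∃ f : Fin M.length → Fin M.length, @IsDownFun _ (ord h) f ∧ f d = c := by
  rw [test, Bool.and_eq_true]
  constructor
  · rintro ⟨h, h2⟩
    refine ⟨h, fun c d hcd => (good_correct h c d hcd).1 ?_⟩
    rw [List.all_eq_true] at h2
    have h3 := h2 (c.1, d.1) (mem_pairs.2 ⟨c.2, d.2⟩)
    rw [Bool.or_eq_true, Bool.not_eq_true'] at h3
    rcases h3 with h3 | h3
    · rw [h3] at hcd; exact absurd hcd (by simp)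
    · exact h3
  · rintro ⟨h, h2⟩
    refine ⟨h, ?_⟩
    rw [List.all_eq_true]
    rintro ⟨c, d⟩ hp
    rw [mem_pairs] at hp
    rw [Bool.or_eq_true, Bool.not_eq_true']
    by_cases hcd : ent M c d = true
    · exact Or.inr ((good_correct h ⟨c, hp.1⟩ ⟨d, hp.2⟩ hcd).2 (h2 _ _ hcd))
    · exact Or.inl (by simpa using hcd)

theorem ent_eq (a b : Fin M.length) : ent M a b = (M[a]).getD b false := by
  unfold ent
  rw [List.getD_eq_getElem _ _ a.2]
  rfl

theorem test_correct : DownPosetProblem M ↔ test M = true := by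
  rw [test_iff]
  constructor
  · rintro ⟨α, iα, ⟨hr, e, he⟩, hP⟩
    have he' : ∀ a b : α, a ≤ b ↔ ent M (e a) (e b) = true := fun a b => by
      rw [ent_eq]; exact he a b
    have hs : ∀ i j : Fin M.length, e.symm i ≤ e.symm j ↔ ent M i j = true := fun i j => by
      rw [he']; simp
    have h : isOrd M = true := by
      rw [isOrd_iff]
      refine ⟨hr, fun i hi => ?_, fun i j hi hj hij hji => ?_, fun i j k hi hj hk hij hjk => ?_⟩
      · exact (hs ⟨i, hi⟩ ⟨i, hi⟩).1 le_rfl
      · have := le_antisymm ((hs ⟨i, hi⟩ ⟨j, hj⟩).2 hij) ((hs ⟨j, hj⟩ ⟨i, hi⟩).2 hji)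
        have := e.symm.injective this
        simpa using this
      · exact (hs ⟨i, hi⟩ ⟨k, hk⟩).1 (((hs ⟨i, hi⟩ ⟨j, hj⟩).2 hij).trans
          ((hs ⟨j, hj⟩ ⟨k, hk⟩).2 hjk))
    refine ⟨h, fun c d hcd => ?_⟩
    obtain ⟨g, hg, hgd⟩ := isDownPoset_iff.1 hP _ _ ((hs c d).2 hcd)
    let _ := ord h
    refine ⟨fun x => e (g (e.symm x)), ⟨fun x => ?_, fun x y hxy => ?_, fun x y hxy => ?_⟩, ?_⟩
    · have := (he' _ _).1 (hg.le (e.symm x))
      rw [Equiv.apply_symm_apply] at this
      exact this
    · exact (he' _ _).1 (hg.mono _ _ ((hs x y).2 hxy))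
    · have h1 : ent M x (e (g (e.symm y))) = true := hxy
      have h2 : e.symm x ≤ g (e.symm y) := by
        rw [he']; simpa using h1
      show e (g (e.symm x)) = x
      rw [hg.fix _ _ h2]
      simp
    · show e (g (e.symm d)) = c
      rw [hgd]
      simp
  · rintro ⟨h, h2⟩
    refine ⟨Fin M.length, ord h, ⟨(isOrd_iff.1 h).1, Equiv.refl _, fun a b => ?_⟩, ?_⟩
    · show ent M a b = true ↔ (M[a]).getD b false = true
      rw [ent_eq]
    · let _ := ord h
      exact isDownPoset_iff.2 fun c d hcd => h2 c d hcd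

/-- Recognising `↓`-posets is in `P`. -/
theorem inPP_downPoset : InPP DownPosetProblem := inPP_of poly_test fun _ => test_correct

end Pool.Agent.NPC.R533.DP
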